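import Pool.Agent.H70.AB.W75.Word

/-!
# Conclusions for 7/5
-/

namespace Pool.Agent.H70.AB.W75

open Pool.Agent.H70.AB G

theorem v_letter {n : ℕ} (hn : n < 93105) : v n = W75a.A.letter n := by
  apply v_known
  rcases s0_cases n with ⟨a, h1, h2⟩ | ⟨h1, h2, h3⟩ | ⟨h1, h2, h3⟩
  · have hraw := W75a.ok.red_raw n (by have := A_R; omega)
    rw [show W75a.A.σ n = s0 n from rfl, h1] at hraw
    unfold Dat.raw at hraw
    split at hraw
    · simp at hraw
    · split at hraw
      · simp at hraw
      · rw [h1, hraw]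
  · omega
  · omega

theorem z_letter {n : ℕ} (hR : n < 10770) (hn : n < 4425 ∨ (n - 4425) % 37 ≠ 36) : zz n = W75b.A.letter n := by
  apply zz_known
  rcases s1_cases n with ⟨h1, h2⟩ | ⟨h1, h2, h3⟩
  · have hraw := W75b.ok.red_raw n (by rw [B_R]; exact hR)
    rw [show W75b.A.σ n = s1 n from rfl, h1] at hraw
    unfold Dat.raw at hraw
    split at hraw
    · simp at hraw
    · split at hraw
      · simp at hraw
      · rw [h1, hraw]
  · exfalso
    rcases hn with h | h
    · omega
    · exact h h3

theorem v_2057 : v 2057 = 1 := by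
  rw [v_letter (by norm_num)]; decide +kernel

theorem zz_4116 : zz 4116 = 0 := by
  rw [z_letter (by norm_num) (by norm_num)]; decide +kernel

theorem v_col0 (i : ℕ) : v (80874 * i + 173978) = zz (2 * i + 2) + 1 := by
  have h := lay0.hx (2 * i + 2)
  have e1 : pos (2 * i + 2) = 80874 * i + 173978 := by unfold pos; rw [if_pos (by omega)]; omega
  have e2 : del (2 * i + 2) = 1 := by unfold del; rw [if_pos (by omega)]
  rw [e1, e2] at h
  exact h

/-- equality of the bits n of x and m of y -/
def eb (x n y m : ℕ) : Bool :=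
  Nat.beq (Nat.mod (Nat.shiftRight x n) (nat_lit 2)) (Nat.mod (Nat.shiftRight y m) (nat_lit 2))

theorem eb_sound {x n y m : ℕ} (h : eb x n y m = true) : x.testBit n = y.testBit m := by
  have h1 := beq_eq h
  have h2 := mod2_tb x n
  have h3 := mod2_tb y m
  rw [h1] at h2
  rw [← h2, ← h3]

/-- test of f on [2^k lo, 2^k (lo + 1)) -/
def allB (f : ℕ → Bool) (k : ℕ) : ℕ → Bool :=
  Nat.rec (motive := fun _ => ℕ → Bool) (fun lo => f lo)
    (fun _ ih lo => Bool.rec false (ih (Nat.succ (Nat.mul (nat_lit 2) lo))) (ih (Nat.mul (nat_lit 2) lo))) k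

theorem allB_succ (f : ℕ → Bool) (k lo : ℕ) : allB f (k + 1) lo = Bool.rec (motive := fun _ => Bool) false
    (allB f k (Nat.succ (Nat.mul 2 lo))) (allB f k (Nat.mul 2 lo)) := rfl

theorem allB_sound (f : ℕ → Bool) : ∀ k lo, allB f k lo = true → ∀ x, x / 2 ^ k = lo → f x = true := by
  intro k
  induction k with
  | zero =>
    intro lo h x hx
    simp only [pow_zero, Nat.div_one] at hx
    subst hx; exact h
  | succ k ih =>
    intro lo h x hx
    rw [allB_succ] at h
    rcases h1 : allB f k (Nat.mul 2 lo) with _ | _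
    · rw [h1] at h; simp at h
    rw [h1] at h
    simp only at h
    have e : x / 2 ^ (k + 1) = x / 2 ^ k / 2 := by rw [pow_succ, Nat.div_div_eq_div_mul]
    rw [e] at hx
    have hm : Nat.mul 2 lo = 2 * lo := rfl
    rcases Nat.mod_two_eq_zero_or_one (x / 2 ^ k) with h2 | h2
    · exact ih _ h1 x (by omega)
    · exact ih _ h x (by rw [hm]; omega)

/-- comparison of the bits i of x0, x1, x2 with the bits 2 i + 2 of y0, y1, y2, or c at most i -/
def cmp (x0 x1 x2 y0 y1 y2 c i : ℕ) : Bool :=
  Bool.rec (Bool.rec false (Bool.rec false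
    (eb x2 i y2 (Nat.succ (Nat.succ (Nat.add i i))))
    (eb x1 i y1 (Nat.succ (Nat.succ (Nat.add i i)))))
    (eb x0 i y0 (Nat.succ (Nat.succ (Nat.add i i))))) true (Nat.ble c i)

theorem cmp_sound {x0 x1 x2 y0 y1 y2 c i : ℕ} (h : cmp x0 x1 x2 y0 y1 y2 c i = true) (hi : i < c) :
    x0.testBit i = y0.testBit (2 * i + 2) ∧ x1.testBit i = y1.testBit (2 * i + 2) ∧
      x2.testBit i = y2.testBit (2 * i + 2) := by
  unfold cmp at h
  rcases hb : Nat.ble c i with _ | _
  swap
  · have : c ≤ i := Nat.le_of_ble_eq_true hb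
    omega
  rw [hb] at h
  simp only at h
  rcases h0 : eb x0 i y0 (Nat.succ (Nat.succ (Nat.add i i))) with _ | _
  · rw [h0] at h; simp at h
  rw [h0] at h
  simp only at h
  rcases h1 : eb x1 i y1 (Nat.succ (Nat.succ (Nat.add i i))) with _ | _
  · rw [h1] at h; simp at h
  rw [h1] at h
  simp only at h
  have e0 := eb_sound h0
  have e1 := eb_sound h1
  have e2 := eb_sound h
  have ei : Nat.succ (Nat.succ (Nat.add i i)) = 2 * i + 2 := by
    change i + i + 2 = 2 * i + 2
    ring
  rw [ei] at e0 e1 e2
  exact ⟨e0, e1, e2⟩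

/-- restriction of a plane -/
def cut (x n : ℕ) : ℕ := Nat.mod x (Nat.pow (nat_lit 2) n)

theorem cut_tb {x n i : ℕ} (h : i < n) : (cut x n).testBit i = x.testBit i := by
  unfold cut
  rw [tb_mod, decide_eq_true h, Bool.true_and]

theorem cmp_ok : allB (cmp (cut W75a.B0 (nat_lit 2057)) (cut W75a.B1 (nat_lit 2057)) (cut W75a.B2 (nat_lit 2057))
    W75b.B0 W75b.B1 W75b.B2 (nat_lit 2057)) (nat_lit 12) (nat_lit 0) = true := by decide +kernel

theorem letter_eq (i : ℕ) (hi : i < 2057) : W75a.A.letter i = W75b.A.letter (2 * i + 2) := by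
  obtain ⟨e0, e1, e2⟩ := cmp_sound (allB_sound _ 12 0 cmp_ok i (Nat.div_eq_of_lt (by omega))) hi
  have h0 : (cut W75a.B0 2057).testBit i = W75a.B0.testBit i := cut_tb hi
  have h1 : (cut W75a.B1 2057).testBit i = W75a.B1.testBit i := cut_tb hi
  have h2 : (cut W75a.B2 2057).testBit i = W75a.B2.testBit i := cut_tb hi
  have e0' := h0.symm.trans e0
  have e1' := h1.symm.trans e1
  have e2' := h2.symm.trans e2
  have f0 : W75a.A.B0.testBit i = W75b.A.B0.testBit (2 * i + 2) := e0'
  have f1 : W75a.A.B1.testBit i = W75b.A.B1.testBit (2 * i + 2) := e1'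
  have f2 : W75a.A.B2.testBit i = W75b.A.B2.testBit (2 * i + 2) := e2'
  unfold G.Dat.letter
  rw [f0, f1, f2]

/-- the conjectured relation holds up to 2056 -/
theorem rel_small (i : ℕ) (hi : i < 2057) : v (80874 * i + 173978) = v i + 1 := by
  have h1 := v_col0 i
  have h2 := v_letter (n := i) (by omega)
  have h3 := z_letter (n := 2 * i + 2) (by omega) (Or.inl (by omega))
  have h4 := letter_eq i hi
  rw [h1, h3, ← h4, ← h2]

theorem rel_fail : v (80874 * 2057 + 173978) = 1 := by
  have h1 := v_col0 2057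
  have h2 : 2 * 2057 + 2 = 4116 := by norm_num
  rw [h2, zz_4116] at h1
  exact h1

theorem zz_step {j : ℕ} (hj : 4415 ≤ j) (hne : j ≠ 4424) (hodd : ∀ u, j ≠ 4498 + 74 * u) :
    zz (j + 74) = zz j := by
  by_cases h1 : 4425 ≤ j
  · by_cases h2 : ∃ i, j = pos1 i
    · obtain ⟨i, rfl⟩ := h2
      have hpar : i % 2 = 0 := by
        by_contra hcon
        apply hodd ((i - 1) / 2)
        unfold pos1
        omega
      have e : pos1 i + 74 = pos1 (i + 2) := by unfold pos1; ring
      rw [e, zz_pos1, zz_pos1]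
      unfold zo
      rw [if_neg (by omega), if_neg (by omega)]
    · push Not at h2
      exact per1 j h1 h2 2
  · have h2 : ∀ i, j + 37 ≠ pos1 i := by
      intro i hi
      unfold pos1 at hi
      omega
    have h3 := per1 (j + 37) (by omega) h2 1
    have h4 : (j + 37 - 4425) % 37 ≠ 36 := by omega
    have hVM : W75b.VM.testBit j = false := by
      change (Nat.pow 2 4424).testBit j = false
      rw [tb_pow, decide_eq_false_iff_not]
      exact fun hh => hne hh.symm
    have h5 := perC_sound W75b.perC (n := j) hj (by rw [B_T]; omega) hVM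
    rw [B_P] at h5
    rw [show j + 74 = j + 37 + 37 * 1 by ring, h3, z_letter (by omega) (Or.inr h4),
      z_letter (n := j) (by omega) (Or.inl (by omega)), h5]

theorem str : Str v 2992338 2992338 2 178986393 178582023 where
  hk := by norm_num
  hK := by norm_num
  hkK := dvd_refl _
  hT := by norm_num
  hD := by norm_num
  hDk := by norm_num
  hcol := by
    intro i
    have e1 : pos (4498 + 74 * i) = 178986393 + 2992338 - 1 + 2992338 * i := by
      unfold pos; rw [if_pos (by omega)]; omega
    have e2 : pos1 (1 + 2 * i) = 4498 + 74 * i := by unfold pos1; ring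
    have h := lay0.hx (4498 + 74 * i)
    have e3 : del (4498 + 74 * i) = 1 := by unfold del; rw [if_pos (by omega)]
    rw [← e1, h, e3, ← e2, zz_pos1]
    unfold zo
    rw [if_pos (by omega), show (1 + 2 * i - 1) / 2 = i by omega]
  hper := by
    intro n hn hcase
    by_cases hv : ∃ j, n = pos j
    · obtain ⟨j, rfl⟩ := hv
      have hj : 4415 ≤ j := by
        by_contra hcon
        have : pos j ≤ pos 4414 := lay0.hmono.monotone (by omega)
        have e : pos 4414 = 178582022 := by unfold pos; rw [if_pos (by norm_num)]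
        omega
      have e : pos j + 2992338 = pos (j + 2 * 37) := by rw [lay0.pos_mul]
      rw [e, lay0.hx, lay0.hx, lay0.δ_mul]
      congr 1
      apply zz_step hj
      · rintro rfl
        have e : pos 4424 = 178986392 := by unfold pos; rw [if_pos (by norm_num)]
        omega
      · rintro u rfl
        have e : pos (4498 + 74 * u) = 181978730 + 2992338 * u := by
          unfold pos; rw [if_pos (by omega)]; omega
        rw [e] at hcase
        rcases hcase with h | ⟨h1, h2⟩
        · omega
        · apply h2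
          have : 181978730 + 2992338 * u + 1 - 178986393 = 2992338 * (u + 1) := by omega
          rw [this]
          exact Nat.mul_mod_right _ _
    · push Not at hv
      have := per0 n (by omega) hv 37
      exact this

theorem final : Str v 2992338 2992338 2 178986393 178582023 ∧ Avoids 5 2 v ∧
    ∀ u, Avoids 5 2 u → v = u ∨ ∃ n, (∀ j, j < n → v j = u j) ∧ v n < u n :=
  ⟨str, avoids, least⟩

end Pool.Agent.H70.AB.W75
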