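import Pool.Agent.H70.AB.W75a.Final
import Pool.Agent.H70.AB.W75b.Final

/-!
# The word for 7/5
-/

namespace Pool.Agent.H70.AB.W75

open Pool.Agent.H70.AB G

/-- symbols of the word w -/
abbrev s0 : ℕ → Sy := W75a.A.σ
/-- symbols of the word Z -/
abbrev s1 : ℕ → Sy := W75b.A.σ

/-- a constant, or one more than the letter of w at a position -/
def zl (i : ℕ) : ℕ ⊕ ℕ := if i % 2 = 1 then .inr ((i - 1) / 2) else .inl 1

/-- helper -/
def zs (j : ℕ) : Sy → ℕ ⊕ ℕ
  | .kn a => .inl a
  | .lb _ => zl ((j - 4425) / 37)

/-- the letter of Z at j: a constant, or one more than the letter of w at a position -/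
def zf (j : ℕ) : ℕ ⊕ ℕ := zs j (s1 j)

/-- index in Z of a variable position of w -/
def idx (n d : ℕ) : ℕ := if d = 1 then 2 * ((n - 93104) / 80874) else 2 * ((n - 93075) / 80874) - 1

/-- evaluation of zf with the letters of w below n given by f -/
noncomputable def evn (n : ℕ) (f : ∀ t, t < n → ℕ) : ℕ ⊕ ℕ → ℕ
  | .inl c => c
  | .inr t => if h : t < n then f t h + 1 else 0

/-- helper -/
noncomputable def vs (n : ℕ) (f : ∀ t, t < n → ℕ) : Sy → ℕ
  | .kn a => a
  | .lb d => evn n f (zf (idx n d)) + d

/-- the word w -/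
noncomputable def v : ℕ → ℕ :=
  WellFounded.fix (C := fun _ => ℕ) Nat.lt_wfRel.wf (fun n f => vs n f (s0 n))

theorem v_eq (n : ℕ) : v n = vs n (fun t _ => v t) (s0 n) := by
  unfold v
  rw [WellFounded.fix_eq]
  rfl

/-- evaluation with all letters -/
noncomputable def ev : ℕ ⊕ ℕ → ℕ
  | .inl c => c
  | .inr t => v t + 1

/-- the word Z -/
noncomputable def zz (j : ℕ) : ℕ := ev (zf j)

/-- the word 0 w(0) 0 w(1) ... -/
noncomputable def zo (i : ℕ) : ℕ := if i % 2 = 1 then v ((i - 1) / 2) else 0

/-- variable positions of w -/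
def pos (j : ℕ) : ℕ := if j % 2 = 0 then 93104 + 80874 * (j / 2) else 93075 + 80874 * ((j + 1) / 2)

/-- offsets -/
def del (j : ℕ) : ℕ := if j % 2 = 0 then 1 else 2

/-- variable positions of Z -/
def pos1 (i : ℕ) : ℕ := 4461 + 37 * i

theorem A_b : W75a.A.b = 5 := rfl
theorem A_g : W75a.A.g = 2 := rfl
theorem A_P : W75a.A.P = 80874 := rfl
theorem A_T : W75a.A.T = 93105 := rfl
theorem A_R : 173979 ≤ W75a.A.R := by change 173979 ≤ 260087; norm_num
theorem A_WA : W75a.A.WA = W75a.WA := rfl
theorem A_WB : W75a.A.WB = W75a.WB := rfl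
theorem A_WA1 : W75b.A.WA = W75b.WA := rfl
theorem B_P : W75b.A.P = 37 := rfl
theorem B_T : W75b.A.T = 4425 := rfl
theorem B_R : W75b.A.R = 10770 := rfl

theorem s0_known {n : ℕ} (h1 : ¬ W75a.A.WA.testBit (W75a.A.red n) = true)
    (h2 : ¬ W75a.A.WB.testBit (W75a.A.red n) = true) : s0 n = .kn (W75a.A.letter (W75a.A.red n)) := by
  unfold s0 Dat.σ Dat.raw
  rw [if_neg h1, if_neg h2]

/-- symbols of w: unknown exactly at the two tracks -/
theorem s0_cases (n : ℕ) : (∃ a, s0 n = .kn a ∧ ((93105 ≤ n → (n - 93105) % 80874 ≠ 80873 ∧ (n - 93105) % 80874 ≠ 80844))) ∨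
    (s0 n = .lb 1 ∧ 93105 ≤ n ∧ (n - 93105) % 80874 = 80873) ∨
    (s0 n = .lb 2 ∧ 93105 ≤ n ∧ (n - 93105) % 80874 = 80844) := by
  obtain ⟨a1, a2⟩ := one_sound W75a.oneA
  obtain ⟨b1, b2⟩ := one_sound W75a.oneB
  rw [A_T] at a1 a2 b1 b2
  rw [A_P] at a2 b2
  by_cases hn : n < 93105
  · left
    have hr : W75a.A.red n = n := by
      unfold Dat.red; rw [A_T, if_pos hn]
    have h1 := a1 n hn
    have h2 := b1 n hn
    refine ⟨_, s0_known (by rw [hr]; change ¬ W75a.WA.testBit n = true; rw [h1]; simp)
      (by rw [hr]; change ¬ W75a.WB.testBit n = true; rw [h2]; simp), fun h => by omega⟩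
  · have hr : W75a.A.red n = 93105 + (n - 93105) % 80874 := by
      unfold Dat.red; rw [A_T, A_P, if_neg hn]
    have hlt : (n - 93105) % 80874 < 80874 := Nat.mod_lt _ (by norm_num)
    have h1 := a2 _ hlt
    have h2 := b2 _ hlt
    by_cases ha : (n - 93105) % 80874 = 80873
    · right; left
      refine ⟨?_, by omega, ha⟩
      unfold s0 Dat.σ Dat.raw
      rw [hr, A_WA, if_pos (h1.mpr ha)]
      rfl
    · by_cases hb : (n - 93105) % 80874 = 80844
      · right; right
        refine ⟨?_, by omega, hb⟩
        unfold s0 Dat.σ Dat.raw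
        rw [hr, A_WA, A_WB, if_neg (fun hh => ha (h1.mp hh)), if_pos (h2.mpr hb)]
        rfl
      · left
        refine ⟨_, s0_known (by rw [hr]; exact fun hh => ha (h1.mp hh)) (by rw [hr]; exact fun hh => hb (h2.mp hh)),
          fun _ => ⟨ha, hb⟩⟩

theorem WB_zero : W75b.A.WB = 0 := rfl

/-- symbols of Z -/
theorem s1_cases (n : ℕ) : (s1 n = .kn (W75b.A.letter (W75b.A.red n)) ∧ ((4425 ≤ n → (n - 4425) % 37 ≠ 36))) ∨
    (s1 n = .lb 1 ∧ 4425 ≤ n ∧ (n - 4425) % 37 = 36) := by
  obtain ⟨a1, a2⟩ := one_sound W75b.oneA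
  rw [B_T] at a1 a2
  rw [B_P] at a2
  have hwb : ∀ r, ¬ W75b.A.WB.testBit r = true := by
    intro r; rw [WB_zero]; simp
  by_cases hn : n < 4425
  · left
    have hr : W75b.A.red n = n := by
      unfold Dat.red; rw [B_T, if_pos hn]
    have h1 := a1 n hn
    refine ⟨?_, fun h => by omega⟩
    unfold s1 Dat.σ Dat.raw
    rw [hr, if_neg (by change ¬ W75b.WA.testBit n = true; rw [h1]; simp), if_neg (hwb n)]
  · have hr : W75b.A.red n = 4425 + (n - 4425) % 37 := by
      unfold Dat.red; rw [B_T, B_P, if_neg hn]
    have hlt : (n - 4425) % 37 < 37 := Nat.mod_lt _ (by norm_num)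
    have h1 := a2 _ hlt
    by_cases ha : (n - 4425) % 37 = 36
    · right
      refine ⟨?_, by omega, ha⟩
      unfold s1 Dat.σ Dat.raw
      rw [hr, A_WA1, if_pos (h1.mpr ha)]
      rfl
    · left
      refine ⟨?_, fun _ => ha⟩
      unfold s1 Dat.σ Dat.raw
      rw [if_neg (by rw [hr]; exact fun hh => ha (h1.mp hh)), if_neg (hwb _)]

theorem zz_known {j a : ℕ} (h : s1 j = .kn a) : zz j = a := by
  unfold zz zf; rw [h]; rfl

theorem ev_zl (i : ℕ) : ev (zl i) = zo i + 1 := by
  unfold zl zo
  by_cases h1 : i % 2 = 1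
  · rw [if_pos h1, if_pos h1]; rfl
  · rw [if_neg h1, if_neg h1]; rfl

theorem zz_lb {j d : ℕ} (h : s1 j = .lb d) : zz j = zo ((j - 4425) / 37) + 1 := by
  unfold zz zf
  rw [h, ← ev_zl]
  rfl

theorem zz_pos1 (i : ℕ) : zz (pos1 i) = zo i + 1 := by
  rcases s1_cases (pos1 i) with ⟨h1, h2⟩ | ⟨h1, h2, h3⟩
  · exfalso
    unfold pos1 at h2
    have := h2 (by omega)
    omega
  · have e : (pos1 i - 4425) / 37 = i := by unfold pos1; omega
    rw [zz_lb h1, e]

theorem v_known {n a : ℕ} (h : s0 n = .kn a) : v n = a := by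
  rw [v_eq, h]; rfl

theorem zl_lt {i t : ℕ} (h : zl i = .inr t) : t ≤ i := by
  unfold zl at h
  split at h
  · have : (i - 1) / 2 = t := by simpa using h
    omega
  · simp at h

theorem zf_lt {j t : ℕ} (h : zf j = .inr t) : t ≤ j := by
  unfold zf at h
  rcases h1 : s1 j with a | a
  · rw [h1] at h
    simp [zs] at h
  · rw [h1] at h
    have h2 : zl ((j - 4425) / 37) = .inr t := h
    have h3 := zl_lt h2
    have h5 : (j - 4425) / 37 ≤ j := by omega
    exact le_trans h3 h5

theorem v_lb {n d : ℕ} (h : s0 n = .lb d) (hn : 93105 ≤ n) : v n = zz (idx n d) + d := by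
  rw [v_eq, h]
  change evn n (fun t _ => v t) (zf (idx n d)) + d = ev (zf (idx n d)) + d
  congr 1
  have h4 : idx n d < n := by
    unfold idx
    split <;> omega
  rcases hz : zf (idx n d) with c | t
  · rfl
  · have := zf_lt hz
    change (if h : t < n then v t + 1 else 0) = v t + 1
    rw [dif_pos (by omega)]

theorem idx_pos {j : ℕ} (hj : 1 ≤ j) : 93105 ≤ pos j ∧ s0 (pos j) = .lb (del j) ∧ idx (pos j) (del j) = j := by
  have h0 := s0_cases (pos j)
  unfold pos del at *
  by_cases h : j % 2 = 0
  · rw [if_pos h] at *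
    rw [if_pos h]
    have e1 : (93104 + 80874 * (j / 2) - 93105) % 80874 = 80873 := by omega
    refine ⟨by omega, ?_, ?_⟩
    · rcases h0 with ⟨a, h1, h2⟩ | ⟨h1, h2, h3⟩ | ⟨h1, h2, h3⟩
      · exact absurd e1 (h2 (by omega)).1
      · exact h1
      · omega
    · unfold idx
      rw [if_pos rfl]
      omega
  · rw [if_neg h] at *
    rw [if_neg h]
    have e1 : (93075 + 80874 * ((j + 1) / 2) - 93105) % 80874 = 80844 := by omega
    refine ⟨by omega, ?_, ?_⟩
    · rcases h0 with ⟨a, h1, h2⟩ | ⟨h1, h2, h3⟩ | ⟨h1, h2, h3⟩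
      · exact absurd e1 (h2 (by omega)).2
      · omega
      · exact h1
    · unfold idx
      rw [if_neg (by norm_num)]
      omega

theorem v_93104 : v 93104 = 2 := by
  apply v_known
  have h : W75a.A.raw 93104 = .kn 2 := by
    unfold Dat.raw
    rw [if_neg (by decide +kernel), if_neg (by decide +kernel)]
    have : W75a.A.letter 93104 = 2 := by decide +kernel
    rw [this]
  have hr : W75a.A.red 93104 = 93104 := by
    unfold Dat.red; rw [A_T, if_pos (by norm_num)]
  unfold s0 Dat.σ
  rw [hr, h]

theorem zz_0 : zz 0 = 1 := by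
  apply zz_known
  have h : W75b.A.raw 0 = .kn 1 := by
    unfold Dat.raw
    rw [if_neg (by decide +kernel), if_neg (by decide +kernel)]
    have : W75b.A.letter 0 = 1 := by decide +kernel
    rw [this]
  have hr : W75b.A.red 0 = 0 := by
    unfold Dat.red; rw [B_T, if_pos (by norm_num)]
  unfold s1 Dat.σ
  rw [hr, h]

theorem lay0 : Lay v zz 2 80874 pos del where
  hq := by norm_num
  hk := by norm_num
  hpos := by
    intro j
    unfold pos
    by_cases h : j % 2 = 0
    · rw [if_pos h, if_pos (by omega)]; omega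
    · rw [if_neg h, if_neg (by omega)]; omega
  hmono := by
    apply strictMono_nat_of_lt_succ
    intro j
    unfold pos
    by_cases h : j % 2 = 0
    · rw [if_pos h, if_neg (by omega)]; omega
    · rw [if_neg h, if_pos (by omega)]; omega
  hx := by
    intro j
    rcases Nat.eq_zero_or_pos j with h | h
    · subst h
      change v 93104 = zz 0 + 1
      rw [v_93104, zz_0]
    · obtain ⟨h1, h2, h3⟩ := idx_pos h
      rw [v_lb h2 h1, h3]
  hδ := by
    intro j
    unfold del
    by_cases h : j % 2 = 0
    · rw [if_pos h, if_pos (by omega)]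
    · rw [if_neg h, if_neg (by omega)]

theorem lay1 : Lay zz zo 1 37 pos1 (fun _ => 1) where
  hq := by norm_num
  hk := by norm_num
  hpos := by intro j; unfold pos1; ring
  hmono := by
    apply strictMono_nat_of_lt_succ
    intro j
    unfold pos1; omega
  hx := zz_pos1
  hδ := fun _ => rfl

theorem sym0 : Sym v s0 93105 80874 where
  kn := fun _ _ h => v_known h
  lb := by
    intro n d h
    rcases s0_cases n with ⟨a, h1, h2⟩ | ⟨h1, h2, h3⟩ | ⟨h1, h2, h3⟩
    · rw [h1] at h; simp at h
    · rw [h1] at h
      have hd : 1 = d := by simpa using h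
      subst hd
      rw [v_lb h1 h2]; omega
    · rw [h1] at h
      have hd : 2 = d := by simpa using h
      subst hd
      rw [v_lb h1 h2]; omega
  per := by
    intro n hn
    exact W75a.ok.σ_per hn
  hP := by norm_num

theorem sym1 : Sym zz s1 4425 37 where
  kn := fun _ _ h => zz_known h
  lb := by
    intro n d h
    rcases s1_cases n with ⟨h1, h2⟩ | ⟨h1, h2, h3⟩
    · rw [h1] at h; simp at h
    · rw [h1] at h
      have hd : 1 = d := by simpa using h
      subst hd
      rw [zz_lb h1]; omega
  per := by
    intro n hn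
    exact W75b.ok.σ_per hn
  hP := by norm_num

/-- w avoids 7/5-powers -/
theorem avoids : Avoids 5 2 v := by
  have main : ∀ m, 0 < m → ∀ i, ¬ ∀ j, j < 2 * m → v (i + j) = v (i + j + 5 * m) := by
    intro m
    induction m using Nat.strong_induction_on with
    | _ m ih =>
    intro hm i hpow
    obtain ⟨h1, h2⟩ := sym0.avoid1 W75a.fin1 hm hpow
    have h3 : 80874 ∣ m := W75a.ok.desc (m := m) h1
    obtain ⟨m', rfl⟩ := h3
    have hm' : 0 < m' := by omega
    obtain ⟨j0, hj0⟩ := lay0.desub (b := 5) (g := 2) (D := 93076) (by decide) h2 hm' (by norm_num) hpow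
    have hj0' : ∀ j, j < 4 * m' → zz (j0 + j) = zz (j0 + j + 10 * m') := by
      intro j hj
      exact hj0 j (by omega)
    obtain ⟨h4, h5⟩ := sym1.avoid1 W75b.fin1 hm' hj0'
    have h6 : 37 ∣ m' := W75b.ok.desc (m := m') h4
    obtain ⟨m2, rfl⟩ := h6
    have hm2 : 0 < m2 := by omega
    obtain ⟨k0, hk0⟩ := lay1.desub (b := 10) (g := 4) (D := 4425) (by decide) h5 hm2 (by norm_num) hj0'
    have hk0' : ∀ j, j < 4 * m2 → zo (k0 + j) = zo (k0 + j + 10 * m2) := by
      intro j hj
      have := hk0 j (by omega)
      rw [this]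
    apply ih m2 (by omega) hm2 (k0 / 2)
    intro j hj
    by_cases hpar : k0 % 2 = 1
    · have := hk0' (2 * j) (by omega)
      unfold zo at this
      rw [if_pos (by omega), if_pos (by omega)] at this
      rw [show (k0 + 2 * j - 1) / 2 = k0 / 2 + j by omega,
        show (k0 + 2 * j + 10 * m2 - 1) / 2 = k0 / 2 + j + 5 * m2 by omega] at this
      exact this
    · have := hk0' (2 * j + 1) (by omega)
      unfold zo at this
      rw [if_pos (by omega), if_pos (by omega)] at this
      rw [show (k0 + (2 * j + 1) - 1) / 2 = k0 / 2 + j by omega,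
        show (k0 + (2 * j + 1) + 10 * m2 - 1) / 2 = k0 / 2 + j + 5 * m2 by omega] at this
      exact this
  intro i m hm
  have := main m hm i
  push Not at this
  exact this

/-- periodicity of the constant letters of w -/
theorem per0 : ∀ n, 93076 ≤ n → (∀ j, n ≠ pos j) → ∀ c, v (n + 80874 * c) = v n := by
  have hT : ∀ n, 93105 ≤ n → (∀ j, n ≠ pos j) → ∀ c, v (n + 80874 * c) = v n := by
    intro n hn hv c
    have hs := sym0.per_mul hn c
    rcases s0_cases n with ⟨a, h1, h2⟩ | ⟨h1, h2, h3⟩ | ⟨h1, h2, h3⟩
    · rw [h1] at hs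
      rw [v_known hs, v_known h1]
    · exfalso
      apply hv (2 * ((n - 93104) / 80874))
      unfold pos
      rw [if_pos (by omega)]
      omega
    · exfalso
      apply hv (2 * ((n - 93075) / 80874) - 1)
      unfold pos
      rw [if_neg (by omega)]
      omega
  intro n hn hv c
  by_cases hnT : 93105 ≤ n
  · exact hT n hnT hv c
  · rcases Nat.eq_zero_or_pos c with h0 | h0
    · subst h0; simp
    · have hne : n ≠ 93104 := hv 0
      have hv2 : ∀ j, n + 80874 ≠ pos j := by
        intro j hj
        rcases Nat.lt_or_ge j 2 with h | h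
        · interval_cases j
          · change n + 80874 = 93104 at hj; omega
          · change n + 80874 = 173949 at hj; omega
        · have e := lay0.hpos (j - 2)
          rw [show j - 2 + 2 = j by omega] at e
          exact hv (j - 2) (by omega)
      have h1 : v (n + 80874) = v n := by
        have hk1 : s0 n = .kn (W75a.A.letter n) := by
          rcases s0_cases n with ⟨a, h1, h2⟩ | ⟨h1, h2, h3⟩ | ⟨h1, h2, h3⟩
          · have hraw := W75a.ok.red_raw n (by have := A_R; omega)
            rw [show W75a.A.σ n = s0 n from rfl, h1] at hraw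
            unfold Dat.raw at hraw
            split at hraw
            · simp at hraw
            · split at hraw
              · simp at hraw
              · rw [h1, hraw]
          · omega
          · omega
        have hk2 : s0 (n + 80874) = .kn (W75a.A.letter (n + 80874)) := by
          rcases s0_cases (n + 80874) with ⟨a, h1, h2⟩ | ⟨h1, h2, h3⟩ | ⟨h1, h2, h3⟩
          · have hraw := W75a.ok.red_raw (n + 80874) (by have := A_R; omega)
            rw [show W75a.A.σ (n + 80874) = s0 (n + 80874) from rfl, h1] at hraw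
            unfold Dat.raw at hraw
            split at hraw
            · simp at hraw
            · split at hraw
              · simp at hraw
              · rw [h1, hraw]
          · exfalso; omega
          · exfalso; omega
        rw [v_known hk1, v_known hk2]
        have hVM : W75a.VM.testBit n = false := by
          change (Nat.pow 2 93104).testBit n = false
          rw [tb_pow, decide_eq_false_iff_not]
          exact fun hh => hne hh.symm
        exact (perC_sound W75a.perC (n := n) hn (by rw [A_T]; omega) hVM).symm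
      obtain ⟨c', rfl⟩ : ∃ c', c = c' + 1 := ⟨c - 1, by omega⟩
      have := hT (n + 80874) (by omega) hv2 c'
      rw [show n + 80874 * (c' + 1) = n + 80874 + 80874 * c' by ring, this, h1]

/-- periodicity of the constant letters of Z -/
theorem per1 : ∀ n, 4425 ≤ n → (∀ j, n ≠ pos1 j) → ∀ c, zz (n + 37 * c) = zz n := by
  intro n hn hv c
  have hs := sym1.per_mul hn c
  rcases s1_cases n with ⟨h1, h2⟩ | ⟨h1, h2, h3⟩
  · rw [h1] at hs
    rw [zz_known hs, zz_known h1]
  · exfalso
    apply hv ((n - 4425) / 37)
    unfold pos1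
    omega

theorem blocked : ∀ n, ∀ c, c < v n → BlR v 5 2 0 n c := by
  intro n
  induction n using Nat.strong_induction_on with
  | _ n ih =>
  intro c hc
  by_cases hlo : c < (s0 n).lo
  · have := sym0.fin_blocked W75a.finB n c (Nat.zero_le _) hlo
    simpa using this
  · -- n is a variable position
    have key : ∃ j, 1 ≤ j ∧ n = pos j ∧ s0 n = .lb (del j) := by
      rcases s0_cases n with ⟨a, h1, h2⟩ | ⟨h1, h2, h3⟩ | ⟨h1, h2, h3⟩
      · rw [h1] at hlo
        have := v_known h1
        simp only [Sy.lo] at hlo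
        omega
      · refine ⟨2 * ((n - 93104) / 80874), by omega, ?_, ?_⟩
        · unfold pos; rw [if_pos (by omega)]; omega
        · unfold del; rw [if_pos (by omega)]; exact h1
      · refine ⟨2 * ((n - 93075) / 80874) - 1, by omega, ?_, ?_⟩
        · unfold pos; rw [if_neg (by omega)]; omega
        · unfold del; rw [if_neg (by omega)]; exact h1
    obtain ⟨j, hj, rfl, hsj⟩ := key
    rw [hsj] at hlo
    simp only [Sy.lo, not_lt] at hlo
    have hvj := lay0.hx j
    have hjn : j < pos j := by
      unfold pos; split <;> omega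
    -- blocked in Z
    have hz : BlR zz (2 * 5) (2 * 2) 0 j (c - del j) := by
      by_cases hlo1 : c - del j < (s1 j).lo
      · have := sym1.fin_blocked W75b.finB j (c - del j) hj hlo1
        simpa using this
      · rcases s1_cases j with ⟨h1, h2⟩ | ⟨h1, h2, h3⟩
        · rw [h1] at hlo1
          have := zz_known h1
          simp only [Sy.lo] at hlo1
          omega
        · rw [h1] at hlo1
          simp only [Sy.lo, not_lt] at hlo1
          obtain ⟨i, hi⟩ : ∃ i, j = pos1 i := ⟨(j - 4425) / 37, by unfold pos1; omega⟩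
          have hzi := zz_pos1 i
          rw [← hi] at hzi
          have hzo : c - del j - 1 < zo i := by omega
          have hodd : i % 2 = 1 := by
            by_contra hcon
            unfold zo at hzo
            rw [if_neg hcon] at hzo
            omega
          have hvt : c - del j - 1 < v ((i - 1) / 2) := by
            unfold zo at hzo
            rw [if_pos hodd] at hzo
            exact hzo
          have hlt : (i - 1) / 2 < pos j := by
            unfold pos1 at hi
            omega
          obtain ⟨m, i0, hm, -, him, hw, hl⟩ := ih _ hlt _ hvt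
          have hzob : BlR zo (1 * 10) (1 * 4) 0 i (c - del j - 1) := by
            refine ⟨m, 2 * i0, hm, Nat.zero_le _, by omega, ?_, ?_⟩
            · intro t ht
              unfold zo
              by_cases hpar : t % 2 = 1
              · rw [if_pos (by omega), if_pos (by omega)]
                have := hw ((t - 1) / 2) (by omega)
                rw [show (2 * i0 + t - 1) / 2 = i0 + (t - 1) / 2 by omega,
                  show (2 * i0 + t + 1 * 10 * m - 1) / 2 = i0 + (t - 1) / 2 + 5 * m by omega]
                exact this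
              · rw [if_neg (by omega), if_neg (by omega)]
            · unfold zo
              rw [if_pos (by omega), show (2 * i0 + 1 * 4 * m - 1 - 1) / 2 = i0 + 2 * m - 1 by omega]
              exact hl
          have him1 := lay1.image (P := 37) (E := 4425) (r' := 0) (b := 10) (g := 4) (by norm_num) per1
            (by norm_num) (by decide) (by
              intro i' _ _
              refine ⟨?_, Nat.zero_le _⟩
              unfold stt
              split
              · decide
              · unfold pos1; omega) hzob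
          rw [← hi] at him1
          rw [show c - del j - 1 + 1 = c - del j by omega] at him1
          exact him1
    have him0 := lay0.image (P := 80874) (E := 93076) (r' := 0) (b := 5) (g := 2) (by norm_num) per0
      (by norm_num) (by decide) (by
        intro i' _ _
        refine ⟨?_, Nat.zero_le _⟩
        unfold stt
        split
        · decide
        · rename_i h0
          have h1 : pos 0 ≤ pos (i' - 1) := lay0.hmono.monotone (Nat.zero_le _)
          change 93104 ≤ pos (i' - 1) at h1
          omega) hz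
    rw [show c - del j + del j = c by omega] at him0
    exact him0

theorem bl_of {b g n c : ℕ} {x : ℕ → ℕ} (h : BlR x b g 0 n c) : Bl x b g n c := by
  obtain ⟨m, i, hm, -, him, hj, hl⟩ := h
  exact ⟨m, i, hm, him, hj, hl⟩

theorem least (u : ℕ → ℕ) (hu : Avoids 5 2 u) : v = u ∨ ∃ n, (∀ j, j < n → v j = u j) ∧ v n < u n :=
  least_of_blocked (by norm_num) (fun n c hc => bl_of (blocked n c hc)) hu

end Pool.Agent.H70.AB.W75
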